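import Pool.Agent.Y714.KW.Sz
import Pool.Agent.Y714.KE.Stm

set_option autoImplicit false
set_option linter.unusedSectionVars false
set_option linter.unusedVariables false

/-! Project KG: forms of `(P^1)^n // SL_2` over a number field `F`, upper bounds. -/

namespace Pool.Agent.Y714.KG

open Pool.Agent.Y714.KE (Al FA FU Em Ux dg cf cp vc cn nA sm un SYM QY tt)
open Pool.Agent.Y714.KF (FI sp ct nm pm ext br ubas qf)
open Pool.Agent.Y714.KW (Mon)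
open NumberField FractionalIdeal Module Finset ComplexConjugate
open scoped nonZeroDivisors

section

variable (F : Type) [Field F] [NumberField F] {s : Type} [Fintype s] [DecidableEq s]
  (K : s → Type) [∀ i, Field (K i)] [∀ i, NumberField (K i)] [∀ i, Algebra F (K i)]

/-- the degree over `F` -/
noncomputable def dF : ℕ := ∑ i, finrank F (K i)

variable {K}

/-- the restriction of a homomorphism to `F` -/
def rs (e : Em K) : F →+* ℂ := e.2.comp (algebraMap F (K e.1))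

variable (K)

/-- the homomorphisms with a given restriction to `F` -/
def Ef (w : F →+* ℂ) : Type := {e : Em K // rs F e = w}

noncomputable instance (w : F →+* ℂ) : Fintype (Ef F K w) :=
  @Fintype.ofFinite _ (Subtype.finite)

noncomputable instance (w : F →+* ℂ) : DecidableEq (Ef F K w) := Classical.decEq _

variable {K}

/-- the restriction of a tuple to the fibre over `w` -/
def rv (w : F →+* ℂ) (v : Em K → ℂ × ℂ) : Ef F K w → ℂ × ℂ := fun e => v e.1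

/-- the size -/
noncomputable def pF (v : Em K → ℂ × ℂ) : ℝ := ∏ w : F →+* ℂ, pm (rv F w v)

variable (K)

/-- the elements of `F` in the algebra -/
def fa : F →+* Al K := RingHom.pi fun i => algebraMap F (K i)

variable {K}

/-- change of basis -/
def glF (a b c d : F) (P : Al K × Al K) : Al K × Al K :=
  (fa F K a * P.1 + fa F K b * P.2, fa F K c * P.1 + fa F K d * P.2)

/-- the brackets of different homomorphisms with the same restriction to `F` are not zero -/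
def NDF (P : Al K × Al K) : Prop := ∀ e f : Em K, e ≠ f → rs F e = rs F f →
  br (vc P e) (vc P f) ≠ 0

/-- the lattice over the integers of `F` -/
def LF (P : Al K × Al K) : Set (Al K) :=
  {x | ∃ a b : 𝓞 F, x = fa F K (a : F) * P.1 + fa F K (b : F) * P.2}

/-- equivalent pairs -/
def EqF (P P' : Al K × Al K) : Prop := ∃ (x : Al K) (a b c d : F), (∀ i, x i ≠ 0) ∧
  a * d - b * c ≠ 0 ∧ P' = sm x (glF F a b c d P)

/-- logarithmic size of a vector -/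
noncomputable def LGF (v : Em K → ℂ × ℂ) (e : Em K) : ℝ :=
  (1 / 2) * (Real.log (pm (ext (rv F (rs F e) v) ⟨e, rfl⟩)) - Real.log (pm (rv F (rs F e) v)))

/-- the mean over a component -/
noncomputable def mLF (v : Em K → ℂ × ℂ) (i : s) : ℝ :=
  (∑ σ : K i →+* ℂ, LGF F v ⟨i, σ⟩) / finrank ℚ (K i)

/-- the logarithmic size of a component -/
noncomputable def uF (v : Em K → ℂ × ℂ) (i : s) : ℝ :=
  mLF F v i + ((1 / 2) * Real.log (pF F v) - ∑ e, LGF F v e) / dg K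

/-- the unit coordinates -/
noncomputable def ccF (v : Em K → ℂ × ℂ) (j : Ux K) : ℝ :=
  (ubas (K j.1)).repr (fun w => (InfinitePlace.mult w.1 : ℝ) *
    (LGF F v ⟨j.1, w.1.embedding⟩ - mLF F v j.1)) j.2

/-- normalised by units -/
def NZF (κ : Ux K → ℝ) (v : Em K → ℂ × ℂ) : Prop := ∀ j, κ j ≤ ccF F v j ∧ ccF F v j < κ j + 1

/-- lattices of bounded size -/
def SAF (κ : Ux K → ℝ) (I : FA K) (t : ℝ) : Set (Set (Al K)) :=
  {M | ∃ P : Al K × Al K, M = LF F P ∧ (∀ i, cn P i ≤ I i) ∧ NDF F P ∧ NZF F κ (vc P) ∧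
    pF F (vc P) ≤ t}

/-- lattices in a cell -/
def SYF (κ : Ux K → ℝ) (i₀ : s) (I : FA K) (y : s → ℝ) : Set (Set (Al K)) :=
  {M | ∃ P : Al K × Al K, M = LF F P ∧ (∀ i, cn P i ≤ I i) ∧ NDF F P ∧ NZF F κ (vc P) ∧
    (∀ i, i ≠ i₀ → y i ≤ uF F (vc P) i ∧ uF F (vc P) i < y i + 1) ∧ pF F (vc P) ≤ tt (K := K) y}

/-- the size for the class `d` -/
noncomputable def szF (d : s → ℕ) (v : Em K → ℂ × ℂ) : ℝ := ∏ w : F →+* ℂ,
  ⨆ m : Mon (fun e : Ef F K w => d e.1.1), ∏ q : Ef F K w × Ef F K w,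
    ‖br (v q.1.1) (v q.2.1)‖ ^ m.1 q

/-- the height of a pair for the class `d` -/
noncomputable def hsF (d : s → ℕ) (P : Al K × Al K) : ℝ :=
  szF F d (vc P) / ∏ i, ((nm (cn P i) : ℚ) : ℝ) ^ d i

/-- the height of a point for the class `d` -/
noncomputable def hdF (d : s → ℕ) (P : Al K × Al K) : ℝ :=
  sInf {r : ℝ | ∃ a b c e : F, a * e - b * c ≠ 0 ∧ r = hsF F d (glF F a b c e P)}

/-- the anticanonical height of a pair -/
noncomputable def hpF (P : Al K × Al K) : ℝ := pF F (vc P) / ((nA (cn P) : ℚ) : ℝ) ^ 2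

end

section

/-! ### statements -/

/-- MK: small solutions of linear inequalities in integers of `F` (all places) -/
def S_MK : Prop := ∀ (F : Type) [Field F] [NumberField F], ∃ C : ℝ, 0 < C ∧
  ∀ (A B : (F →+* ℂ) → ℝ) (lam : (F →+* ℂ) → ℂ), (∀ w, 0 < A w) → (∀ w, 0 < B w) →
  (∀ w, A (ComplexEmbedding.conjugate w) = A w) → (∀ w, B (ComplexEmbedding.conjugate w) = B w) →
  (∀ w, lam (ComplexEmbedding.conjugate w) = conj (lam w)) → 1 ≤ (∏ w, A w) * ∏ w, B w →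
  ∃ x y : 𝓞 F, ¬ (x = 0 ∧ y = 0) ∧ ∀ w : F →+* ℂ,
    ‖w (x : F) + lam w * w (y : F)‖ ≤ C * A w ∧ ‖w (y : F)‖ ≤ C * B w

variable (F : Type) [Field F] [NumberField F] {s : Type} [Fintype s] [DecidableEq s]
  (K : s → Type) [∀ i, Field (K i)] [∀ i, NumberField (K i)] [∀ i, Algebra F (K i)]

/-- CRD: fibres -/
def S_CRD : Prop := (∀ (i : s) (w : F →+* ℂ),
    Nat.card {σ : K i →+* ℂ // σ.comp (algebraMap F (K i)) = w} = finrank F (K i)) ∧
  (∀ w : F →+* ℂ, Fintype.card (Ef F K w) = dF F K) ∧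
  (∀ i, finrank ℚ (K i) = finrank ℚ F * finrank F (K i))

/-- INJ: lattices determine the points -/
def S_INJ : Prop := 2 ≤ dF F K → ∀ P P' : Al K × Al K, NDF F P → NDF F P' → LF F P = LF F P' →
  EqF F P P'

/-- UNF: units -/
def S_UNF : Prop := Odd (dF F K) → ∀ v : Em K → ℂ × ℂ, (∀ w : F →+* ℂ, 0 < pm (rv F w v)) →
  (∀ κ : Ux K → ℝ, ∃ u : ∀ i, (𝓞 (K i))ˣ, NZF F κ (fun e => e.2 (un u e.1) • v e)) ∧
  (∀ u : ∀ i, (𝓞 (K i))ˣ, pF F (fun e => e.2 (un u e.1) • v e) = pF F v ∧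
    ∀ i, uF F (fun e => e.2 (un u e.1) • v e) i = uF F v i)

/-- SUF: the sum of the sizes -/
def S_SUF : Prop := 0 < dg K → ∀ v : Em K → ℂ × ℂ,
  ∑ i, (finrank ℚ (K i) : ℝ) * uF F v i = (1 / 2) * Real.log (pF F v)

/-- BRF: brackets are bounded by the sizes -/
def S_BRF : Prop := Odd (dF F K) → ∀ C : ℝ, ∃ C' : ℝ, 0 < C' ∧ ∀ v : Em K → ℂ × ℂ, SYM v →
  (∀ w : F →+* ℂ, 0 < pm (rv F w v)) → (∀ j, |ccF F v j| ≤ C) →
  ∀ e f : Em K, rs F e = rs F f → ‖br (v e) (v f)‖ ≤ C' * Real.exp (uF F v e.1 + uF F v f.1)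

/-- RDF: reduction of lattices -/
def S_RDF : Prop := 2 ≤ dF F K → ∀ (I : FU K) (C₁ : ℝ), ∃ C : ℝ, 0 < C ∧
  ∀ (y : s → ℝ) (P : Al K × Al K), (∀ i, cn P i ≤ (I i : FI (K i))) → NDF F P →
  (∀ e f : Em K, rs F e = rs F f → ‖br (vc P e) (vc P f)‖ ≤ C₁ * Real.exp (y e.1 + y f.1)) →
  ∃ α ∈ LF F P, ∃ β ∈ LF F P, ∃ m : ℕ, 0 < m ∧ (m : ℝ) ≤ C ∧
    0 < QY y α ∧ QY y α ≤ C ∧ QY y α * QY y β ≤ C ∧
    (∀ c d : F, fa F K c * α + fa F K d * β = 0 → c = 0 ∧ d = 0) ∧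
    ∀ x ∈ LF F P, ∃ c d : 𝓞 F, (m : Al K) * x = fa F K (c : F) * α + fa F K (d : F) * β

/-- T1F: the number of lattices in a cell -/
def S_T1F : Prop := Odd (dF F K) → 3 ≤ dF F K → ∀ (κ : Ux K → ℝ) (i₀ : s) (I : FU K),
  ∃ C : ℝ, 0 < C ∧ ∀ y : s → ℝ, (SYF F κ i₀ (cf I) y).Finite ∧
    ((SYF F κ i₀ (cf I) y).ncard : ℝ) ≤ C * tt (K := K) y

/-- CLF: nonempty cells -/
def S_CLF : Prop := Odd (dF F K) → 3 ≤ dF F K → ∀ (κ : Ux K → ℝ) (i₀ : s) (I : FU K),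
  ∃ C : ℝ, 0 < C ∧ ∀ y : s → ℝ, (SYF F κ i₀ (cf I) y).Nonempty →
    ∃ j, (2 ≤ finrank F (K j) → -C ≤ y j) ∧ ∀ i, i ≠ j → -C ≤ y i ∧ -C ≤ y i + y j

/-- CRF: the crude bound -/
def S_CRF : Prop := Odd (dF F K) → 3 ≤ dF F K → ∀ (κ : Ux K → ℝ) (I : FU K), ∃ C : ℝ, 0 < C ∧
  ∀ t : ℝ, 1 ≤ t → (SAF F κ (cf I) t).Finite ∧ ((SAF F κ (cf I) t).ncard : ℝ) ≤
    C * t * (1 + Real.log t) ^ (Fintype.card s - 1)

open scoped Classical in
/-- NIF: integrality of norms -/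
def S_NIF : Prop := ∀ I : FU K, ∃ c : ℝ, 0 < c ∧ ∀ P : Al K × Al K,
  (∀ i, cn P i ≤ (I i : FI (K i))) → NDF F P → ∀ i j : s,
    c ≤ ∏ q ∈ (univ : Finset ((K i →+* ℂ) × (K j →+* ℂ))).filter (fun q =>
      (⟨i, q.1⟩ : Em K) ≠ ⟨j, q.2⟩ ∧ rs F (⟨i, q.1⟩ : Em K) = rs F (⟨j, q.2⟩ : Em K)),
      ‖br (vc P ⟨i, q.1⟩) (vc P ⟨j, q.2⟩)‖

end

end Pool.Agent.Y714.KG
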