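import Pool.Agent.Y714.KG.Fin
import Pool.Agent.Y794.KW.Du
import Pool.Agent.Y77.KG.BRF
import Pool.Agent.Y77.KG.CRD
import Pool.Agent.Y77.KG.NIF
import Pool.Agent.Y812.KG.Mk
import Pool.Agent.Y812.KG.Unf
import Pool.Agent.Y455.KG.Clf
import Pool.Agent.Y455.KG.Crf
import Pool.Agent.Y480.KG.Rdf
import Pool.Agent.Y146.KG.T1F

set_option autoImplicit false

/-! Project KG: the final statement. Duality by helper794; fibres, lattices, brackets and
integrality of norms by helper77; Minkowski's theorem, units and sizes by helper812; reduction of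
lattices by helper480; the number of lattices in a cell by helper146; nonempty cells and the crude
bound by helper455. -/

namespace Pool.Agent.Y714.KG

open NumberField Module

theorem final (F : Type) [Field F] [NumberField F] {s : Type} [Fintype s] [DecidableEq s]
    (K : s → Type) [∀ i, Field (K i)] [∀ i, NumberField (K i)] [∀ i, Algebra F (K i)]
    (hodd : Odd (dF F K)) (hn : 5 ≤ dF F K) (e : s → ℕ)
    (he : ∀ i, 0 < e i) (h2e : ∀ i, 2 * e i < ∑ j, finrank F (K j) * e j) :
    ∃ C : ℝ, ∀ T : ℝ, 1 ≤ T → (PT F K e T).Finite ∧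
      ((PT F K e T).ncard : ℝ) ≤
        C * T ^ fujF F K e * (1 + Real.log T) ^ (Fintype.card s - 1) := by
  have hCRD : S_CRD F K := Y77.KG.crd F K
  have hRDF : S_RDF F K := Y480.KG.rdf F K Y812.KG.mk hCRD
  have hBRF : S_BRF F K := Y77.KG.brf F K hCRD
  have hSUF : S_SUF F K := Y812.KG.suf F K
  have hT1F : S_T1F F K := Y146.KG.t1f hRDF hBRF hSUF hCRD
  have hCLF : S_CLF F K := Y455.KG.clf hRDF hBRF hSUF hCRD
  exact main Y794.KW.du hCRD (Y77.KG.nif F K) (Y421.KE.cls K) (Y77.KG.inj F K hCRD)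
    (Y812.KG.unf F K hCRD) (Y455.KG.crf hT1F hCLF hSUF hCRD) hodd hn e he h2e

end Pool.Agent.Y714.KG
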