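import Pool.Agent.Y714.KG.Stm
import Pool.Agent.Y977.KE.Bij

set_option autoImplicit false
set_option linter.unusedSectionVars false
set_option linter.unusedVariables false

/-! Project KG: basic lemmas. -/

namespace Pool.Agent.Y714.KG

open Pool.Agent.Y714.KE (Al FA FU Em Ux dg cf cp vc cn nA sm un SYM QY tt vc_sm cn_sm cn_ne nA_pos
  nA_mul sm_sm)
open Pool.Agent.Y714.KF (FI sp ct nm pm ext br ubas qf)
open Pool.Agent.Y714.KW (Mon)
open NumberField FractionalIdeal Module Finset ComplexConjugate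
open scoped nonZeroDivisors

section

variable {F : Type} [Field F] [NumberField F] {s : Type} [Fintype s] [DecidableEq s]
  {K : s → Type} [∀ i, Field (K i)] [∀ i, NumberField (K i)] [∀ i, Algebra F (K i)]

theorem fa_apply (a : F) (i : s) : fa F K a i = algebraMap F (K i) a := rfl

theorem vc_glF (a b c d : F) (P : Al K × Al K) (e : Em K) :
    vc (glF F a b c d P) e = KF.gl (rs F e a) (rs F e b) (rs F e c) (rs F e d) (vc P e) := by
  unfold KE.vc glF KF.gl rs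
  simp only [Pi.add_apply, Pi.mul_apply, fa_apply, map_add, map_mul, RingHom.comp_apply]

theorem br_glF (a b c d : F) (P : Al K × Al K) (e f : Em K) (h : rs F e = rs F f) :
    br (vc (glF F a b c d P) e) (vc (glF F a b c d P) f) =
      rs F e (a * d - b * c) * br (vc P e) (vc P f) := by
  rw [vc_glF, vc_glF, ← h, KF.br_gl]
  simp only [map_sub, map_mul]

theorem NDF.glF {P : Al K × Al K} (h : NDF F P) {a b c d : F} (hdet : a * d - b * c ≠ 0) :
    NDF F (glF F a b c d P) := by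
  intro e f hne hef
  rw [br_glF a b c d P e f hef]
  exact mul_ne_zero ((_root_.map_ne_zero _).2 hdet) (h e f hne hef)

theorem NDF.sm {P : Al K × Al K} (h : NDF F P) {x : Al K} (hx : ∀ i, x i ≠ 0) :
    NDF F (KE.sm x P) := by
  intro e f hne hef
  have h1 : br (vc (KE.sm x P) e) (vc (KE.sm x P) f) =
      e.2 (x e.1) * f.2 (x f.1) * br (vc P e) (vc P f) := by
    rw [vc_sm]
    unfold KF.br
    simp only [Prod.smul_fst, Prod.smul_snd, smul_eq_mul]
    ring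
  rw [h1]
  exact mul_ne_zero (mul_ne_zero ((_root_.map_ne_zero _).2 (hx _)) ((_root_.map_ne_zero _).2 (hx _)))
    (h e f hne hef)

theorem NDF.fib {P : Al K × Al K} (h : NDF F P) (w : F →+* ℂ) (a b : Ef F K w) (hab : a ≠ b) :
    br (rv F w (vc P) a) (rv F w (vc P) b) ≠ 0 :=
  h a.1 b.1 (fun he => hab (Subtype.ext he)) (a.2.trans b.2.symm)

/-- the homomorphisms, by fibres -/
def sgEquiv : ((w : F →+* ℂ) × Ef F K w) ≃ Em K where
  toFun x := x.2.1
  invFun e := ⟨rs F e, e, rfl⟩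
  left_inv := by rintro ⟨w, e, rfl⟩; rfl
  right_inv e := rfl

theorem prod_fib (f : Em K → ℝ) : ∏ w : F →+* ℂ, ∏ e : Ef F K w, f e.1 = ∏ e : Em K, f e := by
  have h : ∏ x : (w : F →+* ℂ) × Ef F K w, f x.2.1 = ∏ w : F →+* ℂ, ∏ e : Ef F K w, f e.1 :=
    Fintype.prod_sigma _
  rw [← Fintype.prod_equiv (sgEquiv (F := F) (K := K)) (fun x => f x.2.1) f fun x => rfl]
  exact h.symm

theorem sum_fib (f : Em K → ℝ) : ∑ w : F →+* ℂ, ∑ e : Ef F K w, f e.1 = ∑ e : Em K, f e := by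
  have h : ∑ x : (w : F →+* ℂ) × Ef F K w, f x.2.1 = ∑ w : F →+* ℂ, ∑ e : Ef F K w, f e.1 :=
    Fintype.sum_sigma _
  rw [← Fintype.sum_equiv (sgEquiv (F := F) (K := K)) (fun x => f x.2.1) f fun x => rfl]
  exact h.symm

/-- a fibre is the sum of the fibres of the components -/
def efEquiv (w : F →+* ℂ) : Ef F K w ≃
    (i : s) × {σ : K i →+* ℂ // σ.comp (algebraMap F (K i)) = w} where
  toFun a := ⟨a.1.1, a.1.2, a.2⟩
  invFun b := ⟨⟨b.1, b.2.1⟩, b.2.2⟩
  left_inv a := rfl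
  right_inv b := rfl

theorem sum_Ef (hCRD : S_CRD F K) (w : F →+* ℂ) (f : s → ℝ) :
    ∑ a : Ef F K w, f a.1.1 = ∑ j, (finrank F (K j) : ℝ) * f j := by
  classical
  have : ∀ i, Fintype {σ : K i →+* ℂ // σ.comp (algebraMap F (K i)) = w} := fun i =>
    Fintype.ofFinite _
  rw [Fintype.sum_equiv (efEquiv w) (fun a : Ef F K w => f a.1.1) (fun b => f b.1) fun a => rfl,
    Fintype.sum_sigma]
  refine sum_congr rfl fun i _ => ?_
  change ∑ _y : {σ : K i →+* ℂ // σ.comp (algebraMap F (K i)) = w}, f i = _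
  rw [sum_const, nsmul_eq_mul, Finset.card_univ, ← hCRD.1 i w, Nat.card_eq_fintype_card]

theorem sum_EfN (hCRD : S_CRD F K) (w : F →+* ℂ) (f : s → ℕ) :
    ∑ a : Ef F K w, f a.1.1 = ∑ j, finrank F (K j) * f j := by
  have h := sum_Ef hCRD w (fun i => (f i : ℝ))
  exact_mod_cast h

theorem pF_nonneg (v : Em K → ℂ × ℂ) : 0 ≤ pF F v := prod_nonneg fun w _ => KF.pm_nonneg _

theorem pF_smul (a : Em K → ℂ) (v : Em K → ℂ × ℂ) :
    pF F (fun e => a e • v e) = (∏ e, ‖a e‖ ^ 2) * pF F v := by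
  unfold pF
  rw [← prod_fib (F := F), ← prod_mul_distrib]
  refine prod_congr rfl fun w _ => ?_
  exact KF.pm_smul (fun e : Ef F K w => a e.1) (rv F w v)

theorem pF_sm (x : Al K) (P : Al K × Al K) : pF F (vc (sm x P)) =
    ((nA (fun i => sp (x i)) : ℚ) : ℝ) ^ 2 * pF F (vc P) := by
  rw [vc_sm, pF_smul (fun e : Em K => e.2 (x e.1)), prod_pow, KE.prod_norm]

theorem pm_pos' (hCRD : S_CRD F K) (hn : 2 ≤ dF F K) {P : Al K × Al K} (h : NDF F P)
    (w : F →+* ℂ) : 0 < pm (rv F w (vc P)) :=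
  KF.pm_pos (by rw [hCRD.2.1]; exact hn) (h.fib w)

/-- the maximum of the monomials in one fibre -/
noncomputable def hw (d : s → ℕ) (v : Em K → ℂ × ℂ) (w : F →+* ℂ) : ℝ :=
  ⨆ m : Mon (fun e : Ef F K w => d e.1.1), ∏ q : Ef F K w × Ef F K w,
    ‖br (v q.1.1) (v q.2.1)‖ ^ m.1 q

theorem szF_eq (d : s → ℕ) (v : Em K → ℂ × ℂ) : szF F d v = ∏ w : F →+* ℂ, hw d v w := rfl

theorem le_hw {d : s → ℕ} (v : Em K → ℂ × ℂ) (w : F →+* ℂ)
    (m : Mon (fun e : Ef F K w => d e.1.1)) :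
    ∏ q : Ef F K w × Ef F K w, ‖br (v q.1.1) (v q.2.1)‖ ^ m.1 q ≤ hw d v w :=
  le_ciSup (f := fun m : Mon (fun e : Ef F K w => d e.1.1) =>
    ∏ q : Ef F K w × Ef F K w, ‖br (v q.1.1) (v q.2.1)‖ ^ m.1 q) (Set.finite_range _).bddAbove m

theorem hw_nonneg (d : s → ℕ) (v : Em K → ℂ × ℂ) (w : F →+* ℂ) : 0 ≤ hw d v w :=
  Real.iSup_nonneg fun m => prod_nonneg fun q _ => by positivity

theorem szF_nonneg (d : s → ℕ) (v : Em K → ℂ × ℂ) : 0 ≤ szF F d v :=
  prod_nonneg fun w _ => hw_nonneg d v w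

theorem szF_smul (d : s → ℕ) (a : Em K → ℂ) (v : Em K → ℂ × ℂ) :
    szF F d (fun e => a e • v e) = (∏ e : Em K, ‖a e‖ ^ d e.1) * szF F d v := by
  rw [szF_eq, szF_eq, ← prod_fib (F := F) (fun e => ‖a e‖ ^ d e.1), ← prod_mul_distrib]
  refine prod_congr rfl fun w _ => ?_
  unfold hw
  rw [Real.mul_iSup_of_nonneg (prod_nonneg fun e _ => by positivity)]
  congr 1
  funext m
  have hk := KW.prod_kappa m (fun e : Ef F K w => ‖a e.1‖)
  rw [← hk, ← prod_mul_distrib]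
  refine prod_congr rfl fun q _ => ?_
  have : br (a q.1.1 • v q.1.1) (a q.2.1 • v q.2.1) =
      a q.1.1 * a q.2.1 * br (v q.1.1) (v q.2.1) := by
    unfold KF.br
    simp only [Prod.smul_fst, Prod.smul_snd, smul_eq_mul]
    ring
  rw [this, norm_mul, norm_mul, mul_pow]

theorem NDF.ne (hCRD : S_CRD F K) (hn : 2 ≤ dF F K) {P : Al K × Al K} (h : NDF F P) (i : s) :
    P.1 i ≠ 0 ∨ P.2 i ≠ 0 := by
  by_contra hcon
  push Not at hcon
  obtain ⟨h1, h2⟩ := hcon
  obtain ⟨σ⟩ : Nonempty (K i →+* ℂ) := inferInstance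
  have hc : 1 < Fintype.card (Ef F K (rs F (⟨i, σ⟩ : Em K))) := by rw [hCRD.2.1]; omega
  obtain ⟨b, hb⟩ := Fintype.exists_ne_of_one_lt_card hc
    (⟨⟨i, σ⟩, rfl⟩ : Ef F K (rs F (⟨i, σ⟩ : Em K)))
  refine h.fib _ _ _ hb.symm ?_
  unfold rv KE.vc KF.br
  simp [h1, h2]

theorem nm_pos_r {P : Al K × Al K} (h : ∀ i, P.1 i ≠ 0 ∨ P.2 i ≠ 0) (i : s) :
    0 < ((nm (cn P i) : ℚ) : ℝ) := by
  have := KF.nm_pos (cn_ne h i)
  exact_mod_cast this

theorem hsF_nonneg (d : s → ℕ) (P : Al K × Al K) : 0 ≤ hsF F d P :=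
  div_nonneg (szF_nonneg _ _) (prod_nonneg fun i _ => pow_nonneg (by
    have : 0 ≤ nm (cn P i) := absNorm_nonneg _
    exact_mod_cast this) _)

theorem hsF_sm (d : s → ℕ) {x : Al K} (hx : ∀ i, x i ≠ 0) (P : Al K × Al K) :
    hsF F d (sm x P) = hsF F d P := by
  unfold hsF
  rw [vc_sm, szF_smul d (fun e : Em K => e.2 (x e.1)), cn_sm]
  have h1 : ∏ e : Em K, ‖e.2 (x e.1)‖ ^ d e.1 = ∏ i, ((nm (sp (x i)) : ℚ) : ℝ) ^ d i := by
    rw [Fintype.prod_sigma]
    refine prod_congr rfl fun i _ => ?_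
    change ∏ y : K i →+* ℂ, ‖y (x i)‖ ^ d i = _
    rw [prod_pow]
    congr 1
    exact KF.prod_norm_emb (x i)
  have h2 : ∏ i, ((nm (sp (x i) * cn P i) : ℚ) : ℝ) ^ d i =
      (∏ i, ((nm (sp (x i)) : ℚ) : ℝ) ^ d i) * ∏ i, ((nm (cn P i) : ℚ) : ℝ) ^ d i := by
    rw [← prod_mul_distrib]
    refine prod_congr rfl fun i _ => ?_
    rw [← mul_pow]
    congr 1
    have : nm (sp (x i) * cn P i) = nm (sp (x i)) * nm (cn P i) := map_mul _ _ _
    rw [this]
    push_cast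
    rfl
  rw [h1, h2]
  refine mul_div_mul_left _ _ ?_
  refine prod_ne_zero_iff.2 fun i _ => pow_ne_zero _ ?_
  have := KF.nm_pos (KF.sp_ne (hx i))
  have h3 : (0 : ℝ) < ((nm (sp (x i)) : ℚ) : ℝ) := by exact_mod_cast this
  exact h3.ne'

theorem hpF_sm {x : Al K} (hx : ∀ i, x i ≠ 0) (P : Al K × Al K) : hpF F (sm x P) = hpF F P := by
  unfold hpF
  rw [pF_sm, cn_sm, nA_mul, Rat.cast_mul, mul_pow]
  refine mul_div_mul_left _ _ (pow_ne_zero _ ?_)
  have : 0 < nA (fun i => sp (x i)) := nA_pos fun i => KF.sp_ne (hx i)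
  have h3 : (0 : ℝ) < ((nA (fun i => sp (x i)) : ℚ) : ℝ) := by exact_mod_cast this
  exact h3.ne'

theorem hpF_nonneg (P : Al K × Al K) : 0 ≤ hpF F P := div_nonneg (pF_nonneg _) (sq_nonneg _)

/-! ### equivalence -/

theorem glF_glF (a b c d a' b' c' d' : F) (P : Al K × Al K) :
    glF F a b c d (glF F a' b' c' d' P) = glF F (a * a' + b * c') (a * b' + b * d')
      (c * a' + d * c') (c * b' + d * d') P := by
  unfold glF
  refine Prod.ext ?_ ?_ <;> simp only [map_add, map_mul] <;> ring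

theorem sm_glF (x : Al K) (a b c d : F) (P : Al K × Al K) :
    sm x (glF F a b c d P) = glF F a b c d (sm x P) := by
  unfold glF KE.sm
  refine Prod.ext ?_ ?_ <;> simp only <;> ring

theorem glF_one (P : Al K × Al K) : glF F 1 0 0 1 P = P := by
  unfold glF
  refine Prod.ext ?_ ?_ <;> simp

theorem EqF.refl (P : Al K × Al K) : EqF F P P :=
  ⟨1, 1, 0, 0, 1, fun i => by simp, by simp, by rw [glF_one, Y977.KE.sm_one]⟩

theorem EqF.smul (P : Al K × Al K) {x : Al K} (hx : ∀ i, x i ≠ 0) : EqF F P (sm x P) :=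
  ⟨x, 1, 0, 0, 1, hx, by simp, by rw [glF_one]⟩

theorem EqF.gl (P : Al K × Al K) {a b c d : F} (h : a * d - b * c ≠ 0) :
    EqF F P (glF F a b c d P) :=
  ⟨1, a, b, c, d, fun i => by simp, h, by rw [Y977.KE.sm_one]⟩

theorem EqF.trans {P Q S : Al K × Al K} (h : EqF F P Q) (h' : EqF F Q S) : EqF F P S := by
  obtain ⟨x, a, b, c, d, hx, hd, rfl⟩ := h
  obtain ⟨y, a', b', c', d', hy, hd', rfl⟩ := h'
  refine ⟨y * x, a' * a + b' * c, a' * b + b' * d, c' * a + d' * c,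
    c' * b + d' * d, Y977.KE.mul_al_ne hy hx, ?_, ?_⟩
  · have : (a' * a + b' * c) * (c' * b + d' * d) - (a' * b + b' * d) * (c' * a + d' * c) =
        (a' * d' - b' * c') * (a * d - b * c) := by ring
    rw [this]
    exact mul_ne_zero hd' hd
  · rw [← sm_sm, ← glF_glF, sm_glF x a' b' c' d']

theorem EqF.symm {P Q : Al K × Al K} (h : EqF F P Q) : EqF F Q P := by
  obtain ⟨x, a, b, c, d, hx, hd, rfl⟩ := h
  refine ⟨x⁻¹, d / (a * d - b * c), -b / (a * d - b * c), -c / (a * d - b * c),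
    a / (a * d - b * c), Y977.KE.inv_al_ne hx, ?_, ?_⟩
  · have : d / (a * d - b * c) * (a / (a * d - b * c)) -
        -b / (a * d - b * c) * (-c / (a * d - b * c)) = (a * d - b * c)⁻¹ := by
      field_simp
    rw [this]
    exact inv_ne_zero hd
  · rw [← sm_glF, sm_sm, Y977.KE.inv_mul_al hx, Y977.KE.sm_one, glF_glF]
    have e1 : d / (a * d - b * c) * a + -b / (a * d - b * c) * c = 1 := by
      rw [div_mul_eq_mul_div, div_mul_eq_mul_div, ← add_div, div_eq_one_iff_eq hd]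
      ring
    have e2 : d / (a * d - b * c) * b + -b / (a * d - b * c) * d = 0 := by
      field_simp
      ring
    have e3 : -c / (a * d - b * c) * a + a / (a * d - b * c) * c = 0 := by
      field_simp
      ring
    have e4 : -c / (a * d - b * c) * b + a / (a * d - b * c) * d = 1 := by
      rw [div_mul_eq_mul_div, div_mul_eq_mul_div, ← add_div, div_eq_one_iff_eq hd]
      ring
    rw [e1, e2, e3, e4, glF_one]

theorem EqF.cls_eq {P Q : Al K × Al K} (h : EqF F P Q) :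
    {P' : Al K × Al K | EqF F P P'} = {P' | EqF F Q P'} := by
  ext S
  exact ⟨fun h' => h.symm.trans h', fun h' => h.trans h'⟩

theorem NDF.of_eq {P Q : Al K × Al K} (h : EqF F P Q) (hP : NDF F P) : NDF F Q := by
  obtain ⟨x, a, b, c, d, hx, hd, rfl⟩ := h
  exact (hP.glF hd).sm hx

end

end Pool.Agent.Y714.KG
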