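import Pool.Agent.Y714.KG.Key

set_option autoImplicit false
set_option linter.unusedSectionVars false
set_option linter.unusedVariables false

/-! Project KG: the count. -/

namespace Pool.Agent.Y714.KG

open Pool.Agent.Y714.KE (Al FA FU Em Ux dg cf cp vc cn nA sm un SYM QY tt vc_sm cn_sm cn_ne nA_pos
  nA_mul sm_sm S_CLS)
open Pool.Agent.Y714.KF (FI sp ct nm pm ext br ubas qf)
open Pool.Agent.Y714.KW (Mon S_DU)
open NumberField FractionalIdeal Module Finset ComplexConjugate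
open scoped nonZeroDivisors

theorem ncard_biUnion_le {α ι : Type} [DecidableEq ι] (R : Finset ι) (S : ι → Set α) :
    (⋃ r ∈ R, S r).ncard ≤ ∑ r ∈ R, (S r).ncard := by
  induction R using Finset.induction_on with
  | empty => simp
  | insert a R ha ih =>
    rw [Finset.set_biUnion_insert, sum_insert ha]
    exact (Set.ncard_union_le _ _).trans (by omega)

section

variable {F : Type} [Field F] [NumberField F] {s : Type} [Fintype s] [DecidableEq s]
  {K : s → Type} [∀ i, Field (K i)] [∀ i, NumberField (K i)] [∀ i, Algebra F (K i)]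

/-- the points with height at most `T ^ 2` -/
def PT (F : Type) [Field F] [NumberField F] {s : Type} [Fintype s] [DecidableEq s]
    (K : s → Type) [∀ i, Field (K i)] [∀ i, NumberField (K i)] [∀ i, Algebra F (K i)]
    (e : s → ℕ) (T : ℝ) : Set (Set (Al K × Al K)) :=
  {D | ∃ P, NDF F P ∧ D = {P' | EqF F P P'} ∧ hdF F (fun i => 2 * e i) P ≤ T ^ 2}

theorem SAF_mono (κ : Ux K → ℝ) (I : FA K) {t t' : ℝ} (h : t ≤ t') :
    SAF F κ I t ⊆ SAF F κ I t' := by
  rintro M ⟨P, h1, h2, h3, h4, h5⟩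
  exact ⟨P, h1, h2, h3, h4, h5.trans h⟩

theorem main (hDU : S_DU) (hCRD : S_CRD F K) (hNI : S_NIF F K) (hCLS : S_CLS K)
    (hINJ : S_INJ F K) (hUNF : S_UNF F K) (hCRF : S_CRF F K)
    (hodd : Odd (dF F K)) (hn : 5 ≤ dF F K) (e : s → ℕ)
    (he : ∀ i, 0 < e i) (h2e : ∀ i, 2 * e i < ∑ j, finrank F (K j) * e j) :
    ∃ C : ℝ, ∀ T : ℝ, 1 ≤ T → (PT F K e T).Finite ∧
      ((PT F K e T).ncard : ℝ) ≤
        C * T ^ fujF F K e * (1 + Real.log T) ^ (Fintype.card s - 1) := by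
  classical
  obtain ⟨w₀⟩ : Nonempty (F →+* ℂ) := inferInstance
  have hcard : 4 ≤ Fintype.card (Ef F K w₀) := by rw [hCRD.2.1]; omega
  obtain ⟨hf0, hf1⟩ := ML.fuj_mem (fun a : Ef F K w₀ => e a.1.1) (fun a => he a.1.1)
    (fun a => by rw [sum_EfN hCRD w₀ e]; exact h2e a.1.1) hcard
  rw [fujF_eq hCRD] at hf0 hf1
  have hE : EffF F K fun i => fujF F K e * e i - 2 :=
    (effF_iff hCRD w₀ fun i => fujF F K e * e i - 2).1 hf1
  set f := fujF F K e with hf
  obtain ⟨C₁, hC₁, hle⟩ := hpF_le hDU hCRD hNI hCLS (by omega) e he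
    (fun i => (h2e i).le) f hf0 hE
  obtain ⟨R, hR, -⟩ := hCLS
  set κ : Ux K → ℝ := fun _ => 0 with hκ
  choose Cr hCr0 hCr using fun r : FU K => hCRF hodd (by omega) κ r
  have hNpos : ∀ r : FU K, 0 < ((nA (cf r) : ℚ) : ℝ) := by
    intro r
    have : 0 < nA (cf r) := nA_pos fun i => (r i).ne_zero
    exact_mod_cast this
  set C₂ : ℝ := C₁ * 2 ^ (f / 2) with hC₂
  have hC₂0 : 0 < C₂ := by positivity
  set B : FU K → ℝ := fun r => 1 + C₂ * ((nA (cf r) : ℚ) : ℝ) ^ 2 with hB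
  have hB1 : ∀ r, 1 ≤ B r := fun r => by
    have := hNpos r
    rw [hB]
    simp only
    have : 0 < C₂ * ((nA (cf r) : ℚ) : ℝ) ^ 2 := by positivity
    linarith
  -- the points give lattices
  have hmap : ∀ T : ℝ, 1 ≤ T → ∀ D ∈ PT F K e T, ∃ Q : Al K × Al K, NDF F Q ∧
      D = {P' | EqF F Q P'} ∧ LF F Q ∈ ⋃ r ∈ R, SAF F κ (cf r) (B r * T ^ f) := by
    rintro T hT D ⟨P, hnd, hD, hh⟩
    have hT0 : 0 < T := by linarith
    have hlt : hdF F (fun i => 2 * e i) P < 2 * T ^ 2 := by nlinarith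
    obtain ⟨ρ, ⟨a, b, c, d, hdet, rfl⟩, hρ⟩ := exists_lt_of_csInf_lt
      (s := {r : ℝ | ∃ a b c d : F, a * d - b * c ≠ 0 ∧
        r = hsF F (fun i => 2 * e i) (glF F a b c d P)}) ⟨_, 1, 0, 0, 1, by simp, rfl⟩ hlt
    set P₁ := glF F a b c d P with hP₁
    have hnd1 : NDF F P₁ := hnd.glF hdet
    have h1 : hpF F P₁ ≤ C₂ * T ^ f := by
      refine (hle P₁ hnd1).trans ?_
      have h2 : hsF F (fun i => 2 * e i) P₁ ^ (f / 2) ≤ (2 * T ^ 2) ^ (f / 2) :=
        Real.rpow_le_rpow (hsF_nonneg _ _) hρ.le (by linarith)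
      have h3 : (2 * T ^ 2) ^ (f / 2) = 2 ^ (f / 2) * T ^ f := by
        rw [Real.mul_rpow (by norm_num) (by positivity)]
        congr 1
        rw [← Real.rpow_natCast T 2, ← Real.rpow_mul hT0.le]
        congr 1
        push_cast
        ring
      rw [h3] at h2
      calc C₁ * hsF F (fun i => 2 * e i) P₁ ^ (f / 2) ≤ C₁ * (2 ^ (f / 2) * T ^ f) :=
            mul_le_mul_of_nonneg_left h2 hC₁.le
        _ = _ := by rw [hC₂]; ring
    have hcn : ∀ i, cn P₁ i ≠ 0 := cn_ne (hnd1.ne hCRD (by omega))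
    obtain ⟨r, hr, x, hx⟩ := hR (fun i => Units.mk0 (cn P₁ i) (hcn i))
    have hx0 : ∀ i, x i ≠ 0 := fun i => (hx i).1
    have hxi : ∀ i, x⁻¹ i ≠ 0 := fun i => inv_ne_zero (hx0 i)
    have hcn2 : cn (sm x⁻¹ P₁) = cf r := by
      rw [cn_sm]
      funext i
      have h1 := (hx i).2
      rw [Units.val_mk0] at h1
      rw [h1, ← mul_assoc, ← KF.sp_mul]
      have : x⁻¹ i * x i = 1 := inv_mul_cancel₀ (hx0 i)
      rw [this]
      simp [cf]
    set P₂ := sm x⁻¹ P₁ with hP₂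
    have hnd2 : NDF F P₂ := hnd1.sm hxi
    have hpF2 : hpF F P₂ = hpF F P₁ := hpF_sm hxi P₁
    obtain ⟨u, hu⟩ := (hUNF hodd (vc P₂) (pm_pos' hCRD (by omega) hnd2)).1 κ
    set P₃ := sm (un u) P₂ with hP₃
    have hvc3 : vc P₃ = fun e => e.2 (un u e.1) • vc P₂ e := vc_sm _ _
    have hun : ∀ i, un u i ≠ 0 := Y977.KE.un_ne u
    have hnd3 : NDF F P₃ := hnd2.sm hun
    have hcn3 : cn P₃ = cf r := by rw [hP₃, Y977.KE.cn_un, hcn2]
    have hpF3 : hpF F P₃ = hpF F P₁ := by rw [hP₃, hpF_sm hun, hpF2]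
    refine ⟨P₃, hnd3, ?_, ?_⟩
    · rw [hD]
      refine EqF.cls_eq ?_
      exact ((EqF.gl P hdet).trans (EqF.smul _ hxi)).trans (EqF.smul _ hun)
    · rw [Set.mem_iUnion₂]
      refine ⟨r, hr, P₃, rfl, fun i => by rw [hcn3], hnd3, ?_, ?_⟩
      · rw [hvc3]
        exact hu
      · have h4 : pF F (vc P₃) = hpF F P₁ * ((nA (cf r) : ℚ) : ℝ) ^ 2 := by
          rw [← hpF3]
          unfold hpF
          rw [hcn3]
          exact (div_mul_cancel₀ _ (pow_pos (hNpos r) 2).ne').symm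
        rw [h4]
        have hTf : 0 ≤ T ^ f := Real.rpow_nonneg hT0.le _
        calc hpF F P₁ * ((nA (cf r) : ℚ) : ℝ) ^ 2 ≤
              C₂ * T ^ f * ((nA (cf r) : ℚ) : ℝ) ^ 2 :=
              mul_le_mul_of_nonneg_right h1 (sq_nonneg _)
          _ ≤ B r * T ^ f := by
              rw [hB]
              simp only
              nlinarith
  refine ⟨∑ r ∈ R, Cr r * B r * (1 + Real.log (B r) + f) ^ (Fintype.card s - 1), fun T hT => ?_⟩
  have hT0 : 0 < T := by linarith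
  have hlogT : 0 ≤ Real.log T := Real.log_nonneg hT
  have hTf : 1 ≤ T ^ f := Real.one_le_rpow hT hf0
  have hBT : ∀ r, 1 ≤ B r * T ^ f := fun r => one_le_mul_of_one_le_of_one_le (hB1 r) hTf
  have hUfin : (⋃ r ∈ R, SAF F κ (cf r) (B r * T ^ f)).Finite :=
    Set.Finite.biUnion (R : Set (FU K)).toFinite fun r _ => (hCr r _ (hBT r)).1
  have hch : ∀ D : Set (Al K × Al K), ∃ M : Set (Al K), D ∈ PT F K e T →
      ∃ Q : Al K × Al K, NDF F Q ∧ D = {P' | EqF F Q P'} ∧ M = LF F Q ∧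
        M ∈ ⋃ r ∈ R, SAF F κ (cf r) (B r * T ^ f) := by
    intro D
    by_cases hD : D ∈ PT F K e T
    · obtain ⟨Q, h1, h2, h3⟩ := hmap T hT D hD
      exact ⟨LF F Q, fun _ => ⟨Q, h1, h2, rfl, h3⟩⟩
    · exact ⟨∅, fun h => absurd h hD⟩
  choose g hg using hch
  have hmaps : ∀ D ∈ PT F K e T, g D ∈ ⋃ r ∈ R, SAF F κ (cf r) (B r * T ^ f) := by
    intro D hD
    obtain ⟨Q, h1, h2, h3, h4⟩ := hg D hD
    exact h4
  have hinj : Set.InjOn g (PT F K e T) := by
    intro D hD D' hD' h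
    obtain ⟨Q, h1, h2, h3, h4⟩ := hg D hD
    obtain ⟨Q', h1', h2', h3', h4'⟩ := hg D' hD'
    rw [h2, h2']
    exact EqF.cls_eq (hINJ (by omega) Q Q' h1 h1' (by rw [← h3, ← h3', h]))
  refine ⟨Set.Finite.of_injOn hmaps hinj hUfin, ?_⟩
  have h1 : (PT F K e T).ncard ≤ ∑ r ∈ R, (SAF F κ (cf r) (B r * T ^ f)).ncard :=
    (Set.ncard_le_ncard_of_injOn g hmaps hinj hUfin).trans (ncard_biUnion_le R _)
  have h2 : ((PT F K e T).ncard : ℝ) ≤ ∑ r ∈ R, ((SAF F κ (cf r) (B r * T ^ f)).ncard : ℝ) := by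
    exact_mod_cast h1
  refine h2.trans ?_
  rw [sum_mul, sum_mul]
  refine sum_le_sum fun r _ => ((hCr r _ (hBT r)).2).trans ?_
  have hlogB : 0 ≤ Real.log (B r) := Real.log_nonneg (hB1 r)
  have h6 : 1 + Real.log (B r * T ^ f) ≤ (1 + Real.log (B r) + f) * (1 + Real.log T) := by
    rw [Real.log_mul (by have := hB1 r; linarith) (by linarith), Real.log_rpow hT0]
    nlinarith [mul_nonneg hlogB hlogT]
  have h7 : 0 ≤ 1 + Real.log (B r * T ^ f) := by
    have := Real.log_nonneg (hBT r)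
    linarith
  calc Cr r * (B r * T ^ f) * (1 + Real.log (B r * T ^ f)) ^ (Fintype.card s - 1)
      ≤ Cr r * (B r * T ^ f) *
        ((1 + Real.log (B r) + f) * (1 + Real.log T)) ^ (Fintype.card s - 1) := by
        refine mul_le_mul_of_nonneg_left (pow_le_pow_left₀ h7 h6 _) ?_
        have := hCr0 r
        have := hB1 r
        positivity
    _ = _ := by rw [mul_pow]; ring

end

end Pool.Agent.Y714.KG
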