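import Pool.Agent.Y714.KG.Bs
import Pool.Agent.Y714.KW.Asm

set_option autoImplicit false
set_option linter.unusedSectionVars false
set_option linter.unusedVariables false

/-! Project KG: comparison of the sizes. -/

namespace Pool.Agent.Y714.KG

open Pool.Agent.Y714.KE (Al FA FU Em Ux dg cf cp vc cn nA sm un SYM QY tt vc_sm cn_sm cn_ne nA_pos
  nA_mul sm_sm S_CLS)
open Pool.Agent.Y714.KF (FI sp ct nm pm ext br ubas qf)
open Pool.Agent.Y714.KW (Mon S_DU)
open NumberField FractionalIdeal Module Finset ComplexConjugate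
open scoped nonZeroDivisors

section

variable (F : Type) [Field F] [NumberField F] {s : Type} [Fintype s] [DecidableEq s]
  (K : s → Type) [∀ i, Field (K i)] [∀ i, NumberField (K i)] [∀ i, Algebra F (K i)]

/-- effective classes -/
def EffF (x : s → ℝ) : Prop :=
  ∀ i, 0 ≤ x i ∧ 2 * x i ≤ ∑ j, (finrank F (K j) : ℝ) * x j

/-- the Fujita invariant -/
noncomputable def fujF (e : s → ℕ) : ℝ := sInf {t : ℝ | EffF F K fun i => t * e i - 2}

variable {F K}

theorem exists_Ef (hCRD : S_CRD F K) (w : F →+* ℂ) (i : s) : ∃ a : Ef F K w, a.1.1 = i := by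
  have h1 : 0 < Nat.card {σ : K i →+* ℂ // σ.comp (algebraMap F (K i)) = w} := by
    rw [hCRD.1 i w]
    by_contra hcon
    have h2 : finrank F (K i) = 0 := by omega
    have h3 := hCRD.2.2 i
    rw [h2, mul_zero] at h3
    exact (finrank_pos (R := ℚ) (M := K i)).ne' h3
  obtain ⟨⟨σ, hσ⟩⟩ := (Nat.card_pos_iff.1 h1).1
  exact ⟨⟨⟨i, σ⟩, hσ⟩, rfl⟩

theorem effF_iff (hCRD : S_CRD F K) (w : F →+* ℂ) (x : s → ℝ) :
    ML.Eff (fun a : Ef F K w => x a.1.1) ↔ EffF F K x := by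
  unfold ML.Eff EffF
  rw [sum_Ef hCRD w x]
  constructor
  · intro h i
    obtain ⟨a, rfl⟩ := exists_Ef hCRD w i
    exact h a
  · intro h a
    exact h a.1.1

theorem fujF_eq (hCRD : S_CRD F K) (w : F →+* ℂ) (e : s → ℕ) :
    ML.fuj (fun a : Ef F K w => e a.1.1) = fujF F K e := by
  unfold ML.fuj fujF
  congr 1
  ext t
  exact effF_iff hCRD w (fun i => t * e i - 2)

open scoped Classical in
/-- the number of the homomorphisms of a component with a given restriction -/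
theorem cnt (hCRD : S_CRD F K) (a : Em K) (j : s) :
    ((univ : Finset (K j →+* ℂ)).filter (fun τ => a ≠ ⟨j, τ⟩ ∧
      rs F a = rs F (⟨j, τ⟩ : Em K))).card + (if a.1 = j then 1 else 0) = finrank F (K j) := by
  have h1 : ((univ : Finset (K j →+* ℂ)).filter (fun τ => rs F a = rs F (⟨j, τ⟩ : Em K))).card =
      finrank F (K j) := by
    rw [← hCRD.1 j (rs F a), ← Fintype.card_subtype, ← Nat.card_eq_fintype_card]
    refine Nat.card_congr (Equiv.subtypeEquivRight fun τ => ?_)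
    exact ⟨fun h => h.symm, fun h => h.symm⟩
  rw [← h1]
  by_cases h : a.1 = j
  · subst h
    rw [if_pos rfl]
    have h2 : (univ : Finset (K a.1 →+* ℂ)).filter (fun τ => a ≠ ⟨a.1, τ⟩ ∧
        rs F a = rs F (⟨a.1, τ⟩ : Em K)) = ((univ : Finset (K a.1 →+* ℂ)).filter
        (fun τ => rs F a = rs F (⟨a.1, τ⟩ : Em K))).erase a.2 := by
      ext τ
      simp only [mem_filter, mem_univ, true_and, mem_erase]
      refine and_congr_left fun _ => ?_
      refine not_congr ⟨fun h => ?_, fun h => by rw [h]⟩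
      obtain ⟨i, σ⟩ := a
      simpa using (Sigma.mk.inj_iff.1 h).2.symm
    rw [h2, card_erase_of_mem (by simp)]
    have : 0 < ((univ : Finset (K a.1 →+* ℂ)).filter
        (fun τ => rs F a = rs F (⟨a.1, τ⟩ : Em K))).card := card_pos.2 ⟨a.2, by simp⟩
    omega
  · rw [if_neg h, add_zero]
    congr 1
    ext τ
    simp only [mem_filter, mem_univ, true_and, and_iff_right_iff_imp]
    intro _ h2
    exact h (congrArg Sigma.fst h2)

theorem key (hDU : S_DU) (hCRD : S_CRD F K) (hNI : S_NIF F K) (e : s → ℕ) (he : ∀ i, 0 < e i)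
    (h2e : ∀ i, 2 * e i ≤ ∑ j, finrank F (K j) * e j) (t : ℝ) (ht0 : 0 ≤ t)
    (hE : EffF F K fun i => t * e i - 2) (I : FU K) :
    ∃ C : ℝ, 0 < C ∧ ∀ P : Al K × Al K, (∀ i, cn P i ≤ (I i : FI (K i))) → NDF F P →
      pF F (vc P) ≤ C * szF F (fun i => 2 * e i) (vc P) ^ (t / 2) := by
  classical
  obtain ⟨c, hc, hNI⟩ := hNI I
  set A : ℝ := |Real.log c| / 2 with hA
  set Ne : ℝ := ∑ σ : Em K, (e σ.1 : ℝ) with hNe
  set X : ℝ := ∑ σ : Em K, (t * e σ.1 - 2) with hX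
  refine ⟨Real.exp (t * (Ne * Real.log 2) + A * X), Real.exp_pos _, fun P hP hnd => ?_⟩
  have hwpos : ∀ a b : Em K, a ≠ b → rs F a = rs F b → 0 < ‖br (vc P a) (vc P b)‖ :=
    fun a b hab h => norm_pos_iff.2 (hnd a b hab h)
  have hDUw : ∀ w : F →+* ℂ, ∃ Λ : Ef F K w → ℝ, (∀ a, 0 < Λ a) ∧
      (∀ a b, a ≠ b → ‖br (vc P a.1) (vc P b.1)‖ ≤ Λ a * Λ b) ∧
      ∏ a, Λ a ^ (2 * e a.1.1) ≤ 2 ^ (2 * ∑ a : Ef F K w, e a.1.1) *
        hw (fun i => 2 * e i) (vc P) w := by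
    intro w
    exact hDU (Ef F K w) (fun a => e a.1.1) (fun a => he a.1.1)
      (fun a => by rw [sum_EfN hCRD w e]; exact h2e a.1.1)
      (fun a b => ‖br (vc P a.1) (vc P b.1)‖) (fun a b => KF.norm_br_swap _ _)
      (fun a b => norm_nonneg _)
      (fun a b hab => norm_pos_iff.2 (hnd.fib w a b hab)) _
      (fun m => le_hw (d := fun i => 2 * e i) (vc P) w m)
  choose Λ hΛ0 hΛ1 hΛ2 using hDUw
  have hHw : ∀ w : F →+* ℂ, 0 < hw (fun i => 2 * e i) (vc P) w := by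
    intro w
    have hprodpos : 0 < ∏ a : Ef F K w, Λ w a ^ (2 * e a.1.1) :=
      prod_pos fun a _ => pow_pos (hΛ0 w a) _
    by_contra hcon
    push Not at hcon
    have h1 : (2 : ℝ) ^ (2 * ∑ i : Ef F K w, e i.1.1) *
        hw (fun i => 2 * e i) (vc P) w ≤ 0 :=
      mul_nonpos_of_nonneg_of_nonpos (by positivity) hcon
    have := hΛ2 w
    linarith
  set ζ : Em K → ℝ := fun a => Real.log (Λ (rs F a) ⟨a, rfl⟩) with hζdef
  have hζe : ∀ (w : F →+* ℂ) (a : Ef F K w), Real.log (Λ w a) = ζ a.1 := by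
    rintro w ⟨a, rfl⟩
    rfl
  have hζ : ∀ a b, a ≠ b → rs F a = rs F b → Real.log ‖br (vc P a) (vc P b)‖ ≤ ζ a + ζ b := by
    intro a b hab h
    obtain ⟨A1, hA1⟩ : ∃ A1 : Ef F K (rs F a), A1.1 = a := ⟨⟨a, rfl⟩, rfl⟩
    obtain ⟨B1, hB1⟩ : ∃ B1 : Ef F K (rs F a), B1.1 = b := ⟨⟨b, h.symm⟩, rfl⟩
    have h1 := hΛ1 (rs F a) A1 B1 (fun h2 => hab (by rw [← hA1, ← hB1, h2]))
    have h2 := hζe (rs F a) A1
    have h3 := hζe (rs F a) B1
    rw [hA1] at h2
    rw [hB1] at h3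
    rw [hA1, hB1] at h1
    rw [← h2, ← h3, ← Real.log_mul (hΛ0 _ _).ne' (hΛ0 _ _).ne']
    exact Real.log_le_log (hwpos a b hab h) h1
  set zb : s → ℝ := fun i => (∑ σ : K i →+* ℂ, ζ ⟨i, σ⟩) / finrank ℚ (K i) with hzb
  have hcard : ∀ i, Fintype.card (K i →+* ℂ) = finrank ℚ (K i) := fun i => KF.card_emb
  have hnpos : ∀ i, (1 : ℝ) ≤ finrank ℚ (K i) := fun i => by
    exact_mod_cast (finrank_pos (R := ℚ) (M := K i))
  have hSum : ∀ i, ∑ σ : K i →+* ℂ, ζ ⟨i, σ⟩ = finrank ℚ (K i) * zb i := by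
    intro i
    have := hnpos i
    rw [hzb]
    simp only
    field_simp
  have hlog : -|Real.log c| ≤ Real.log c := neg_abs_le _
  have habs : 0 ≤ |Real.log c| := abs_nonneg _
  -- the block sums
  have hblock : ∀ i j : s, ∑ q ∈ (univ : Finset ((K i →+* ℂ) × (K j →+* ℂ))).filter (fun q =>
      (⟨i, q.1⟩ : Em K) ≠ ⟨j, q.2⟩ ∧ rs F (⟨i, q.1⟩ : Em K) = rs F (⟨j, q.2⟩ : Em K)),
      ζ ⟨i, q.1⟩ = (finrank F (K j) - (if i = j then 1 else 0)) * (finrank ℚ (K i) * zb i) := by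
    intro i j
    rw [sum_filter, ← univ_product_univ, sum_product, ← hSum, mul_sum]
    refine sum_congr rfl fun σ _ => ?_
    simp only
    rw [← sum_filter, sum_const, nsmul_eq_mul]
    congr 1
    have h1 := cnt hCRD (⟨i, σ⟩ : Em K) j
    simp only at h1
    rw [← h1]
    push_cast
    ring
  have hblock' : ∀ i j : s, ∑ q ∈ (univ : Finset ((K i →+* ℂ) × (K j →+* ℂ))).filter (fun q =>
      (⟨i, q.1⟩ : Em K) ≠ ⟨j, q.2⟩ ∧ rs F (⟨i, q.1⟩ : Em K) = rs F (⟨j, q.2⟩ : Em K)),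
      ζ ⟨j, q.2⟩ = (finrank F (K i) - (if i = j then 1 else 0)) * (finrank ℚ (K j) * zb j) := by
    intro i j
    rw [sum_filter, ← univ_product_univ, sum_product_right, ← hSum, mul_sum]
    refine sum_congr rfl fun σ _ => ?_
    simp only
    rw [← sum_filter, sum_const, nsmul_eq_mul]
    congr 1
    have h1 := cnt hCRD (⟨j, σ⟩ : Em K) i
    simp only at h1
    rw [← h1]
    have h2 : (univ : Finset (K i →+* ℂ)).filter (fun τ => (⟨i, τ⟩ : Em K) ≠ ⟨j, σ⟩ ∧
        rs F (⟨i, τ⟩ : Em K) = rs F (⟨j, σ⟩ : Em K)) =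
        (univ : Finset (K i →+* ℂ)).filter (fun τ => (⟨j, σ⟩ : Em K) ≠ ⟨i, τ⟩ ∧
        rs F (⟨j, σ⟩ : Em K) = rs F (⟨i, τ⟩ : Em K)) := by
      refine filter_congr fun τ _ => ?_
      rw [ne_comm, eq_comm (a := rs F (⟨i, τ⟩ : Em K))]
    rw [h2]
    by_cases hij : i = j
    · rw [if_pos hij, if_pos hij.symm]
      push_cast
      ring
    · rw [if_neg hij, if_neg (fun h => hij h.symm)]
      push_cast
      ring
  have hdF : ∀ i, (finrank ℚ (K i) : ℝ) = finrank ℚ F * finrank F (K i) := fun i => by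
    rw [hCRD.2.2 i]
    push_cast
    rfl
  have hd1 : (1 : ℝ) ≤ finrank ℚ F := by exact_mod_cast (finrank_pos (R := ℚ) (M := F))
  obtain ⟨w₀⟩ : Nonempty (F →+* ℂ) := inferInstance
  have hfpos : ∀ i, 1 ≤ finrank F (K i) := by
    intro i
    by_contra hcon
    have h2 : finrank F (K i) = 0 := by omega
    have h3 := hCRD.2.2 i
    rw [h2, mul_zero] at h3
    exact (finrank_pos (R := ℚ) (M := K i)).ne' h3
  have hfpos' : ∀ i, (1 : ℝ) ≤ finrank F (K i) := fun i => by exact_mod_cast hfpos i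
  have hpair : ∀ a b : Ef F K w₀, a ≠ b → 0 ≤ (zb a.1.1 + A) + (zb b.1.1 + A) := by
    intro a b hab
    obtain ⟨⟨i, σ⟩, hσ⟩ := a
    obtain ⟨⟨j, τ⟩, hτ⟩ := b
    have hne : (⟨i, σ⟩ : Em K) ≠ ⟨j, τ⟩ := fun h => hab (Subtype.ext h)
    have hst : rs F (⟨i, σ⟩ : Em K) = rs F (⟨j, τ⟩ : Em K) := hσ.trans hτ.symm
    have hf2 : (1 : ℝ) ≤ finrank F (K j) - (if i = j then 1 else 0) := by
      have h1 := cnt hCRD (⟨i, σ⟩ : Em K) j
      simp only at h1
      have h2 : 0 < ((univ : Finset (K j →+* ℂ)).filter (fun τ => (⟨i, σ⟩ : Em K) ≠ ⟨j, τ⟩ ∧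
        rs F (⟨i, σ⟩ : Em K) = rs F (⟨j, τ⟩ : Em K))).card :=
        card_pos.2 ⟨τ, by simpa only [mem_filter, mem_univ, true_and] using ⟨hne, hst⟩⟩
      rw [← h1]
      push_cast
      have h3 : (1 : ℝ) ≤ ((univ : Finset (K j →+* ℂ)).filter (fun τ => (⟨i, σ⟩ : Em K) ≠ ⟨j, τ⟩ ∧
        rs F (⟨i, σ⟩ : Em K) = rs F (⟨j, τ⟩ : Em K))).card := by exact_mod_cast h2
      linarith
    have key2 : -|Real.log c| ≤ zb i + zb j := by
      have h2 : Real.log c ≤ ∑ q ∈ (univ : Finset ((K i →+* ℂ) × (K j →+* ℂ))).filter (fun q =>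
          (⟨i, q.1⟩ : Em K) ≠ ⟨j, q.2⟩ ∧ rs F (⟨i, q.1⟩ : Em K) = rs F (⟨j, q.2⟩ : Em K)),
          (ζ ⟨i, q.1⟩ + ζ ⟨j, q.2⟩) := by
        refine (Real.log_le_log hc (hNI P hP hnd i j)).trans ?_
        rw [Real.log_prod fun q hq => ?_]
        · refine sum_le_sum fun q hq => ?_
          rw [mem_filter] at hq
          exact hζ _ _ hq.2.1 hq.2.2
        · rw [mem_filter] at hq
          exact (hwpos _ _ hq.2.1 hq.2.2).ne'
      rw [sum_add_distrib, hblock, hblock', hdF, hdF] at h2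
      have h3 : Real.log c ≤ (((finrank F (K j) : ℝ) - (if i = j then 1 else 0)) *
          (finrank ℚ F * finrank F (K i))) * (zb i + zb j) := by
        refine h2.trans (le_of_eq ?_)
        by_cases hij : i = j
        · subst hij
          ring
        · rw [if_neg hij]
          ring
      by_cases hz : 0 ≤ zb i + zb j
      · linarith
      · push Not at hz
        have h4 : 1 ≤ ((finrank F (K j) : ℝ) - (if i = j then 1 else 0)) *
            (finrank ℚ F * finrank F (K i)) :=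
          one_le_mul_of_one_le_of_one_le hf2 (one_le_mul_of_one_le_of_one_le hd1 (hfpos' i))
        have h5 := mul_le_mul_of_nonpos_right h4 hz.le
        linarith
    change 0 ≤ (zb i + A) + (zb j + A)
    rw [hA]
    linarith
  have heff := ML.eff_sum (fun a : Ef F K w₀ => t * e a.1.1 - 2) (fun a => zb a.1.1 + A)
    ((effF_iff hCRD w₀ fun i => t * e i - 2).2 hE) hpair
  have heff2 : 0 ≤ ∑ j, (finrank F (K j) : ℝ) * ((t * e j - 2) * (zb j + A)) := by
    have := sum_Ef hCRD w₀ (fun j => (t * e j - 2) * (zb j + A))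
    rw [← this]
    exact heff
  have h5' : 0 ≤ ∑ a : Em K, (t * e a.1 - 2) * ζ a + A * X := by
    have h6 : ∑ a : Em K, (t * e a.1 - 2) * ζ a + A * X =
        ∑ j, (finrank ℚ (K j) : ℝ) * ((t * e j - 2) * (zb j + A)) := by
      rw [hX, mul_sum, ← sum_add_distrib, Fintype.sum_sigma]
      refine sum_congr rfl fun i _ => ?_
      change ∑ σ : K i →+* ℂ, ((t * e i - 2) * ζ ⟨i, σ⟩ + A * (t * e i - 2)) = _
      rw [sum_add_distrib, ← mul_sum, hSum, sum_const, nsmul_eq_mul, Finset.card_univ, hcard]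
      ring
    have h7 : ∑ j, (finrank ℚ (K j) : ℝ) * ((t * e j - 2) * (zb j + A)) =
        finrank ℚ F * ∑ j, (finrank F (K j) : ℝ) * ((t * e j - 2) * (zb j + A)) := by
      rw [mul_sum]
      refine sum_congr rfl fun j _ => ?_
      rw [hdF]
      ring
    rw [h6, h7]
    exact mul_nonneg (by linarith) heff2
  -- the bound of the size
  have h6 : pF F (vc P) ≤ Real.exp (2 * ∑ a, ζ a) := by
    have h7 : Real.exp (2 * ∑ a, ζ a) = ∏ w : F →+* ℂ, ∏ a : Ef F K w, Real.exp (2 * ζ a.1) := by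
      rw [prod_fib (fun a => Real.exp (2 * ζ a)), mul_sum, Real.exp_sum]
    rw [h7]
    refine prod_le_prod (fun _ _ => KF.pm_nonneg _) fun w _ => ?_
    have h8 : ∏ a : Ef F K w, Real.exp (2 * ζ a.1) = ∏ a : Ef F K w, Λ w a ^ 2 := by
      refine prod_congr rfl fun a _ => ?_
      rw [← hζe, two_mul, Real.exp_add, Real.exp_log (hΛ0 w a), sq]
    rw [h8]
    exact KF.pm_le fun π => by
      calc ∏ a, ‖br (rv F w (vc P) a) (rv F w (vc P) (π a))‖ ≤ ∏ a, (Λ w a * Λ w (π a)) :=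
            prod_le_prod (fun _ _ => norm_nonneg _) fun a _ => by
              by_cases h : a = π a
              · rw [← h, KF.br_self, norm_zero]
                exact (mul_pos (hΛ0 _ _) (hΛ0 _ _)).le
              · exact hΛ1 w a (π a) h
        _ = (∏ a, Λ w a) * ∏ a, Λ w (π a) := prod_mul_distrib
        _ = _ := by rw [Equiv.prod_comp π (Λ w), ← sq, prod_pow]
  have hHpos : 0 < szF F (fun i => 2 * e i) (vc P) := prod_pos fun w _ => hHw w
  have hlogH : Real.log (szF F (fun i => 2 * e i) (vc P)) =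
      ∑ w : F →+* ℂ, Real.log (hw (fun i => 2 * e i) (vc P) w) := by
    rw [szF_eq, Real.log_prod fun w _ => (hHw w).ne']
  have h8 : 2 * ∑ a : Em K, (e a.1 : ℝ) * ζ a ≤ 2 * Ne * Real.log 2 +
      Real.log (szF F (fun i => 2 * e i) (vc P)) := by
    have h9 : ∀ w : F →+* ℂ, 2 * ∑ a : Ef F K w, (e a.1.1 : ℝ) * ζ a.1 ≤
        2 * (∑ a : Ef F K w, (e a.1.1 : ℝ)) * Real.log 2 +
        Real.log (hw (fun i => 2 * e i) (vc P) w) := by
      intro w
      have hprodpos : 0 < ∏ a : Ef F K w, Λ w a ^ (2 * e a.1.1) :=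
        prod_pos fun a _ => pow_pos (hΛ0 w a) _
      have h9 := Real.log_le_log hprodpos (hΛ2 w)
      rw [Real.log_prod fun a _ => (pow_pos (hΛ0 w a) _).ne',
        Real.log_mul (by positivity) (hHw w).ne', Real.log_pow] at h9
      have h10 : ∑ a : Ef F K w, Real.log (Λ w a ^ (2 * e a.1.1)) =
          2 * ∑ a : Ef F K w, (e a.1.1 : ℝ) * ζ a.1 := by
        rw [mul_sum]
        refine sum_congr rfl fun a _ => ?_
        rw [Real.log_pow, ← hζe]
        push_cast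
        ring
      rw [h10] at h9
      refine h9.trans (le_of_eq ?_)
      push_cast
      rfl
    have h11 := sum_le_sum fun (w : F →+* ℂ) (_ : w ∈ univ) => h9 w
    rw [sum_add_distrib, ← mul_sum, ← sum_mul, ← mul_sum,
      sum_fib (fun a => (e a.1 : ℝ) * ζ a), sum_fib (fun a : Em K => (e a.1 : ℝ)), ← hlogH] at h11
    exact h11
  have h11 : 2 * ∑ a, ζ a = t * ∑ a : Em K, (e a.1 : ℝ) * ζ a -
      ∑ a : Em K, (t * (e a.1 : ℝ) - 2) * ζ a := by
    rw [mul_sum, mul_sum, ← sum_sub_distrib]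
    exact sum_congr rfl fun a _ => by ring
  have h12 : 2 * ∑ a, ζ a ≤ t * (Ne * Real.log 2) + A * X +
      Real.log (szF F (fun i => 2 * e i) (vc P)) * (t / 2) := by
    have h13 : t * ∑ a : Em K, (e a.1 : ℝ) * ζ a ≤
        t * (Ne * Real.log 2 + Real.log (szF F (fun i => 2 * e i) (vc P)) / 2) := by
      refine mul_le_mul_of_nonneg_left ?_ ht0
      linarith
    rw [h11]
    linarith
  calc pF F (vc P) ≤ _ := h6
    _ ≤ Real.exp (t * (Ne * Real.log 2) + A * X +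
        Real.log (szF F (fun i => 2 * e i) (vc P)) * (t / 2)) := Real.exp_le_exp.2 h12
    _ = _ := by rw [Real.exp_add, Real.rpow_def_of_pos hHpos]

theorem hpF_le (hDU : S_DU) (hCRD : S_CRD F K) (hNI : S_NIF F K) (hCLS : S_CLS K)
    (hn : 2 ≤ dF F K) (e : s → ℕ)
    (he : ∀ i, 0 < e i) (h2e : ∀ i, 2 * e i ≤ ∑ j, finrank F (K j) * e j) (t : ℝ) (ht0 : 0 ≤ t)
    (hE : EffF F K fun i => t * e i - 2) :
    ∃ C : ℝ, 0 < C ∧ ∀ P : Al K × Al K, NDF F P →
      hpF F P ≤ C * hsF F (fun i => 2 * e i) P ^ (t / 2) := by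
  classical
  obtain ⟨R, hR, -⟩ := hCLS
  choose Cr hCr0 hCr using key hDU hCRD hNI e he h2e t ht0 hE
  set D : FU K → ℝ := fun r => ∏ i, ((nm (r i : FI (K i)) : ℚ) : ℝ) ^ (2 * e i) with hD
  have hrpos : ∀ (r : FU K) (i : s), 0 < ((nm (r i : FI (K i)) : ℚ) : ℝ) := by
    intro r i
    have := KF.nm_pos (r i).ne_zero
    exact_mod_cast this
  have hDpos : ∀ r, 0 < D r := fun r => prod_pos fun i _ => pow_pos (hrpos r i) _
  have hNpos : ∀ r : FU K, 0 < ((nA (cf r) : ℚ) : ℝ) := by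
    intro r
    have : 0 < nA (cf r) := nA_pos fun i => (r i).ne_zero
    exact_mod_cast this
  set G : FU K → ℝ := fun r => Cr r * D r ^ (t / 2) / ((nA (cf r) : ℚ) : ℝ) ^ 2 with hG
  have hGpos : ∀ r, 0 < G r := fun r => by
    have h1 := hCr0 r
    have h2 := Real.rpow_pos_of_pos (hDpos r) (t / 2)
    have h3 := hNpos r
    rw [hG]
    positivity
  refine ⟨∑ r ∈ R, G r + 1, by
    have := sum_nonneg fun r (_ : r ∈ R) => (hGpos r).le
    linarith, fun P hnd => ?_⟩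
  have hcn : ∀ i, cn P i ≠ 0 := cn_ne (hnd.ne hCRD hn)
  obtain ⟨r, hr, x, hx⟩ := hR (fun i => Units.mk0 (cn P i) (hcn i))
  have hx0 : ∀ i, x i ≠ 0 := fun i => (hx i).1
  have hxi : ∀ i, x⁻¹ i ≠ 0 := fun i => inv_ne_zero (hx0 i)
  have hcn2 : cn (sm x⁻¹ P) = cf r := by
    rw [cn_sm]
    funext i
    have h1 := (hx i).2
    rw [Units.val_mk0] at h1
    rw [h1, ← mul_assoc, ← KF.sp_mul]
    have : x⁻¹ i * x i = 1 := inv_mul_cancel₀ (hx0 i)
    rw [this]
    simp [cf]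
  have hnd2 : NDF F (sm x⁻¹ P) := hnd.sm hxi
  rw [← hpF_sm hxi, ← hsF_sm (fun i => 2 * e i) hxi P]
  set Q := sm x⁻¹ P with hQ
  have h1 := hCr r Q (fun i => by rw [hcn2]; exact le_rfl) hnd2
  have hsz : szF F (fun i => 2 * e i) (vc Q) = hsF F (fun i => 2 * e i) Q * D r := by
    unfold hsF
    rw [hcn2]
    exact (div_mul_cancel₀ _ (hDpos r).ne').symm
  rw [hsz, Real.mul_rpow (hsF_nonneg _ _) (hDpos r).le] at h1
  have h2 : hpF F Q ≤ G r * hsF F (fun i => 2 * e i) Q ^ (t / 2) := by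
    unfold hpF
    rw [hcn2, div_le_iff₀ (pow_pos (hNpos r) 2), hG]
    refine h1.trans (le_of_eq ?_)
    have := (hNpos r).ne'
    field_simp
  refine h2.trans (mul_le_mul_of_nonneg_right ?_ (Real.rpow_nonneg (hsF_nonneg _ _) _))
  have := single_le_sum (fun r (_ : r ∈ R) => (hGpos r).le) hr
  linarith

end

end Pool.Agent.Y714.KG
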